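import Pool.Agent.Helper95.FL.Stmts2

/-!
# XT-C7: the halving perturbation on the group
-/

set_option autoImplicit false

namespace Pool.Agent.Helper85.FL

open Pool.Agent.Helper95.FL
open scoped Classical

section

variable {G : Type} [Group G] (U : Fin 3 → Subgroup G) (k : ℕ)

/-- `l` is a word of length at most `k`, not ending in `s`, in the coset `g U s` -/
def PW (l : List (Fin 3 × G)) (g : G) (s : Fin 3) : Prop :=
  Word U l ∧ l.length ≤ k ∧ l.getLast?.map Prod.fst ≠ some s ∧ (prodW l)⁻¹ * g ∈ U s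

lemma prodW_append (l l' : List (Fin 3 × G)) : prodW (l ++ l') = prodW l * prodW l' := by
  simp [prodW]

variable {U k}

lemma PW.ext {l : List (Fin 3 × G)} {g : G} {s : Fin 3} (h : PW U k l g s) :
    ∃ w, Word U w ∧ prodW w = g ∧ w.length ≤ k + 1 ∧
      ((w.length = l.length ∧ w.getLast?.map Prod.fst ≠ some s) ∨
        (w.length = l.length + 1 ∧ w.getLast?.map Prod.fst = some s)) := by
  obtain ⟨h1, h2, h3, h4⟩ := h
  by_cases hv : (prodW l)⁻¹ * g = 1
  · exact ⟨l, h1, inv_mul_eq_one.1 hv, by omega, Or.inl ⟨rfl, h3⟩⟩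
  · refine ⟨l ++ [(s, (prodW l)⁻¹ * g)], ⟨?_, ?_⟩, ?_, ?_, Or.inr ⟨by simp, by simp⟩⟩
    · intro p hp
      rw [List.mem_append, List.mem_singleton] at hp
      rcases hp with hp | rfl
      · exact h1.1 p hp
      · exact ⟨h4, hv⟩
    · rw [List.isChain_append]
      refine ⟨h1.2, List.isChain_singleton _, ?_⟩
      intro x hx y hy hxy
      simp only [List.head?_cons, Option.mem_def, Option.some.injEq] at hx hy
      subst hy
      apply h3
      rw [hx]
      simpa using hxy
    · rw [prodW_append]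
      simp [prodW]
    · simpa using h2

lemma PW.of_last {w : List (Fin 3 × G)} {g : G} {s : Fin 3} (hw : Word U w) (hg : prodW w = g)
    (hk : w.length ≤ k + 1) (hs : w.getLast?.map Prod.fst = some s) :
    ∃ l, PW U k l g s ∧ w.length = l.length + 1 := by
  rcases List.eq_nil_or_concat w with rfl | ⟨l, p, rfl⟩
  · simp at hs
  · simp only [List.getLast?_append, List.getLast?_singleton, Option.some_or,
      Option.map_some, Option.some.injEq, List.length_append, List.length_cons, List.length_nil,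
      List.concat_eq_append] at hs hk hw hg ⊢
    have hc := hw.2
    rw [List.isChain_append] at hc
    refine ⟨l, ⟨⟨fun q hq => hw.1 q (List.mem_append_left _ hq), hc.1⟩, by omega, ?_, ?_⟩, rfl⟩
    · intro h
      rw [Option.map_eq_some_iff] at h
      obtain ⟨q, hq, hqs⟩ := h
      exact hc.2.2 q hq p (by simp) (hqs.trans hs.symm)
    · rw [← hg, prodW_append, ← mul_assoc, inv_mul_cancel, one_mul, ← hs]
      have := (hw.1 p (by simp)).1
      simpa [prodW] using this

lemma PW.of_ne {w : List (Fin 3 × G)} {g : G} {s : Fin 3} (hw : Word U w) (hg : prodW w = g)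
    (hk : w.length ≤ k) (hs : w.getLast?.map Prod.fst ≠ some s) : PW U k w g s := by
  refine ⟨hw, hk, hs, ?_⟩
  rw [hg, inv_mul_cancel]
  exact one_mem _

/-- two descriptions of the same element -/
lemma PW.cmp (h : StUniq) {m : ℕ} (hU : Girth U m) (hm : 2 * k + 4 ≤ m)
    {l w : List (Fin 3 × G)} {g : G} {s : Fin 3}
    (hl : PW U k l g s) (hw : Word U w) (hg : prodW w = g) (hk : w.length ≤ k + 1) :
    (w.length = l.length ∧ w.getLast?.map Prod.fst ≠ some s) ∨
        (w.length = l.length + 1 ∧ w.getLast?.map Prod.fst = some s) := by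
  obtain ⟨v, hv, hvg, hvk, hvl⟩ := hl.ext
  obtain ⟨h1, h2⟩ := h G U m hU v w hv hw (hvg.trans hg.symm) (by omega)
  rw [← h1, ← h2]
  exact hvl

lemma PW.len_eq (h : StUniq) {m : ℕ} (hU : Girth U m) (hm : 2 * k + 4 ≤ m)
    {l l' : List (Fin 3 × G)} {g : G} {s : Fin 3}
    (hl : PW U k l g s) (hl' : PW U k l' g s) : l.length = l'.length := by
  obtain ⟨v, hv, hvg, hvk, hvl⟩ := hl.ext
  have h1 := PW.cmp h hU hm hl' hv hvg hvk
  rcases hvl with ⟨a1, a2⟩ | ⟨a1, a2⟩ <;> rcases h1 with ⟨b1, b2⟩ | ⟨b1, b2⟩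
  · omega
  · exact absurd b2 a2
  · exact absurd a2 b2
  · omega

/-- the amplitudes -/
def amp (k η j : ℕ) : ℤ := (-1) ^ (j + 1) * 2 ^ (k - j) * η

lemma abs_amp (k η j : ℕ) : |amp k η j| = 2 ^ (k - j) * η := by
  rw [amp, abs_mul, abs_mul, abs_pow, abs_neg, abs_one, one_pow, one_mul, abs_pow]
  simp

lemma amp_add (k η j : ℕ) (hj : j + 1 ≤ k) : amp k η j + 2 * amp k η (j + 1) = 0 := by
  obtain ⟨i, rfl⟩ := Nat.exists_eq_add_of_le hj
  rw [amp, amp, show j + 1 + i - j = i + 1 by omega, show j + 1 + i - (j + 1) = i by omega]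
  ring

variable (U k)

/-- the perturbation -/
noncomputable def D (η : ℕ) (g : G) (s : Fin 3) : ℤ :=
  if h : ∃ l, PW U k l g s then amp k η h.choose.length else 0

variable {U k}

lemma D_eq (h : StUniq) {m : ℕ} (hU : Girth U m) (hm : 2 * k + 4 ≤ m) {η : ℕ}
    {l : List (Fin 3 × G)} {g : G} {s : Fin 3} (hl : PW U k l g s) :
    D U k η g s = amp k η l.length := by
  have he : ∃ l, PW U k l g s := ⟨l, hl⟩
  rw [D, dif_pos he, PW.len_eq h hU hm he.choose_spec hl]

lemma D_eq_zero {η : ℕ} {g : G} {s : Fin 3} (hl : ¬ ∃ l, PW U k l g s) : D U k η g s = 0 :=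
  dif_neg hl

lemma D_mul {η : ℕ} (g : G) (s : Fin 3) (u : G) (hu : u ∈ U s) :
    D U k η (g * u) s = D U k η g s := by
  have h1 : (fun l => PW U k l (g * u) s) = fun l => PW U k l g s := by
    funext l
    rw [PW, PW, ← mul_assoc, (U s).mul_mem_cancel_right hu]
  unfold D
  simp only [h1]

lemma abs_D (h : StUniq) {m : ℕ} (hU : Girth U m) (hm : 2 * k + 4 ≤ m) {η : ℕ} (g : G)
    (s : Fin 3) : |D U k η g s| ≤ 2 ^ k * η := by
  by_cases he : ∃ l, PW U k l g s
  · obtain ⟨l, hl⟩ := he
    rw [D_eq h hU hm hl, abs_amp]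
    have h1 : (2 : ℤ) ^ (k - l.length) ≤ 2 ^ k := pow_le_pow_right₀ (by norm_num) (by omega)
    exact mul_le_mul_of_nonneg_right h1 (by positivity)
  · rw [D_eq_zero he, abs_zero]
    positivity

end

theorem stHalve (h : StUniq) : StHalve := by
  intro G _ U m k hU hm η
  refine ⟨D U k η, fun g s u hu => D_mul g s u hu, ?_, ?_, fun g s => abs_D h hU hm g s⟩
  · have h1 : ∀ s, D U k η 1 s = - (2 ^ k * η) := by
      intro s
      have h2 : PW U k [] 1 s := PW.of_ne ⟨by simp, List.isChain_nil⟩ (by simp [prodW]) (by simp)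
        (by simp)
      rw [D_eq h hU hm h2, amp]
      simp
    rw [Finset.sum_congr rfl fun s _ => h1 s]
    simp
    ring
  · intro g hg
    by_cases he : ∃ s, ∃ l, PW U k l g s
    · obtain ⟨s₀, l₀, hl₀⟩ := he
      obtain ⟨w, hw, hwg, hwk, -⟩ := hl₀.ext
      have hw0 : w ≠ [] := by
        rintro rfl
        exact hg (by rw [← hwg]; simp [prodW])
      obtain ⟨t, ht⟩ : ∃ t, w.getLast?.map Prod.fst = some t := by
        rw [List.getLast?_eq_some_getLast hw0]
        exact ⟨_, rfl⟩
      obtain ⟨j, hj⟩ : ∃ j, w.length = j + 1 := by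
        cases w with
        | nil => exact absurd rfl hw0
        | cons a w => exact ⟨w.length, rfl⟩
      have h1 : D U k η g t = amp k η j := by
        obtain ⟨l, hl, hlen⟩ := PW.of_last hw hwg hwk ht
        rw [D_eq h hU hm hl]
        congr 1
        omega
      have h2 : ∀ s, s ≠ t → D U k η g s = if j + 1 ≤ k then amp k η (j + 1) else 0 := by
        intro s hs
        have hs' : w.getLast?.map Prod.fst ≠ some s := by
          rw [ht]
          simpa using hs.symm
        split_ifs with hjk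
        · rw [D_eq h hU hm (PW.of_ne hw hwg (by omega) hs'), hj]
        · refine D_eq_zero ?_
          rintro ⟨l, hl⟩
          rcases PW.cmp h hU hm hl hw hwg hwk with ⟨a1, -⟩ | ⟨-, a2⟩
          · have := hl.2.1
            omega
          · exact hs' a2
      have h3 : ∑ s, D U k η g s = amp k η j + 2 * if j + 1 ≤ k then amp k η (j + 1) else 0 := by
        rw [← Finset.add_sum_erase Finset.univ _ (Finset.mem_univ t), h1,
          Finset.sum_congr rfl (fun s hs => h2 s (Finset.ne_of_mem_erase hs))]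
        rw [Finset.sum_const, Finset.card_erase_of_mem (Finset.mem_univ t), Finset.card_univ,
          Fintype.card_fin]
        simp
      rw [h3]
      split_ifs with hjk
      · rw [amp_add k η j hjk, abs_zero]
        positivity
      · rw [mul_zero, add_zero, abs_amp, show k - j = 0 by omega]
        simp
    · have h1 : ∀ s, D U k η g s = 0 := fun s => D_eq_zero fun hl => he ⟨s, hl⟩
      rw [Finset.sum_congr rfl fun s _ => h1 s]
      simp

end Pool.Agent.Helper85.FL
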